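import Pool.Agent.N977.P.Stm2
import Pool.Agent.N319.LE.Uni

/-!
Uniqueness of smooth solutions for the class `LowE` (the proof is `sol_unique_E` of helper319).
-/

namespace Pool.Agent.N433.NSP

theorem uni : Pool.Agent.N977.P.S_UNI :=
  fun _ _ _ _ _ _ _ _ _ _ hp hδ hν hK hu hv h0 =>
    Pool.Agent.N319.LE.sol_unique_E hν hp hδ hK hu hv h0

end Pool.Agent.N433.NSP
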